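import Pool.Agent.Lib.MP_2d002d_gt.PM.H87.Marg
import Pool.Agent.Lib.MP_2d002d_gt.H29.Layer

/-!
A measure on `ℝⁿ` which is a product measure and has an even log-concave density `exp (-V)` has a
density `∏ fᵢ (xᵢ)` with even log-concave `fᵢ`.
-/

set_option autoImplicit false

open MeasureTheory Set Filter Topology
open scoped ENNReal Pointwise

namespace Pool.Agent.Lib.MP_2d002d_gt.H20

open Pool.Agent.Lib.MP_2d002d_gt.PM Pool.Agent.Lib.MP_2d002d_gt.PM.H87

/-! ### from `V` to a Borel density -/

section StepA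

variable {n : ℕ} {V : (Fin n → ℝ) → EReal}

lemma convex_dom
    (hconv : ∀ (x y : Fin n → ℝ) (s : ℝ), 0 < s → s < 1 →
      V (s • x + (1 - s) • y) ≤ (s : EReal) * V x + ((1 - s : ℝ) : EReal) * V y) :
    Convex ℝ {x | V x ≠ ⊤} := by
  rw [convex_iff_forall_pos]
  intro x hx y hy a b ha hb hab
  have hb' : b = 1 - a := by linarith
  subst hb'
  simp only [mem_ofPred_eq] at hx hy ⊢
  have h := hconv x y a ha (by linarith)
  refine ne_top_of_le_ne_top ?_ h
  refine (EReal.add_lt_top ?_ ?_).ne
  · intro h1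
    rw [EReal.mul_eq_top] at h1
    rcases h1 with h1 | h1 | h1 | h1
    · exact absurd h1.1 (EReal.coe_ne_bot _)
    · exact absurd h1.1 (not_lt.2 (by exact_mod_cast ha.le))
    · exact absurd h1.1 (EReal.coe_ne_top _)
    · exact hx h1.2
  · intro h1
    rw [EReal.mul_eq_top] at h1
    rcases h1 with h1 | h1 | h1 | h1
    · exact absurd h1.1 (EReal.coe_ne_bot _)
    · exact absurd h1.1 (not_lt.2 (by exact_mod_cast hb.le))
    · exact absurd h1.1 (EReal.coe_ne_top _)
    · exact hy h1.2

lemma convexOn_toReal (hV : ∀ x, V x ≠ ⊥)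
    (hconv : ∀ (x y : Fin n → ℝ) (s : ℝ), 0 < s → s < 1 →
      V (s • x + (1 - s) • y) ≤ (s : EReal) * V x + ((1 - s : ℝ) : EReal) * V y) :
    ConvexOn ℝ {x | V x ≠ ⊤} (fun x => (V x).toReal) := by
  rw [convexOn_iff_forall_pos]
  refine ⟨convex_dom hconv, ?_⟩
  intro x hx y hy a b ha hb hab
  have hb' : b = 1 - a := by linarith
  subst hb'
  have hxy := convex_dom hconv hx hy ha.le hb.le hab
  simp only [mem_ofPred_eq] at hx hy hxy
  have h := hconv x y a ha (by linarith)
  have ex : V x = ((V x).toReal : EReal) := (EReal.coe_toReal hx (hV x)).symm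
  have ey : V y = ((V y).toReal : EReal) := (EReal.coe_toReal hy (hV y)).symm
  have exy : V (a • x + (1 - a) • y) = ((V (a • x + (1 - a) • y)).toReal : EReal) :=
    (EReal.coe_toReal hxy (hV _)).symm
  rw [exy, ex, ey] at h
  simp only [smul_eq_mul]
  exact_mod_cast h

/-- the Borel version of the density -/
noncomputable def dens (V : (Fin n → ℝ) → EReal) : (Fin n → ℝ) → ℝ≥0∞ :=
  (interior {x | V x ≠ ⊤}).indicator (fun x => ENNReal.ofReal (Real.exp (-(V x).toReal)))

lemma measurable_dens (hV : ∀ x, V x ≠ ⊥)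
    (hconv : ∀ (x y : Fin n → ℝ) (s : ℝ), 0 < s → s < 1 →
      V (s • x + (1 - s) • y) ≤ (s : EReal) * V x + ((1 - s : ℝ) : EReal) * V y) :
    Measurable (dens V) := by
  classical
  have h1 : ContinuousOn (fun x => (V x).toReal) (interior {x | V x ≠ ⊤}) :=
    (convexOn_toReal hV hconv).continuousOn_interior
  have h2 : ContinuousOn (fun x => ENNReal.ofReal (Real.exp (-(V x).toReal)))
      (interior {x | V x ≠ ⊤}) :=
    ENNReal.continuous_ofReal.comp_continuousOn (Real.continuous_exp.comp_continuousOn h1.neg)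
  have h3 := h2.measurable_piecewise (g := fun _ => (0 : ℝ≥0∞)) continuousOn_const
    isOpen_interior.measurableSet
  unfold dens
  rw [← piecewise_eq_indicator]
  exact h3

lemma logC_dens (hV : ∀ x, V x ≠ ⊥)
    (hconv : ∀ (x y : Fin n → ℝ) (s : ℝ), 0 < s → s < 1 →
      V (s • x + (1 - s) • y) ≤ (s : EReal) * V x + ((1 - s : ℝ) : EReal) * V y) :
    LogC (dens V) := by
  intro t ht0 ht1 x y
  have ht' : 0 < 1 - t := by linarith
  by_cases hx : x ∈ interior {x | V x ≠ ⊤}
  · by_cases hy : y ∈ interior {x | V x ≠ ⊤}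
    · have hxy : (1 - t) • x + t • y ∈ interior {x | V x ≠ ⊤} :=
        (convex_dom hconv).interior hx hy ht'.le ht0.le (by ring)
      unfold dens
      rw [indicator_of_mem hx, indicator_of_mem hy, indicator_of_mem hxy,
        ENNReal.ofReal_rpow_of_pos (Real.exp_pos _), ENNReal.ofReal_rpow_of_pos (Real.exp_pos _),
        ← ENNReal.ofReal_mul (by positivity)]
      refine ENNReal.ofReal_le_ofReal ?_
      rw [← Real.exp_mul, ← Real.exp_mul, ← Real.exp_add]
      refine Real.exp_le_exp.2 ?_
      have h := (convexOn_toReal hV hconv).2 (interior_subset hx) (interior_subset hy)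
        ht'.le ht0.le (by ring)
      simp only [smul_eq_mul] at h
      nlinarith
    · unfold dens
      rw [indicator_of_notMem hy, ENNReal.zero_rpow_of_pos ht0, mul_zero]
      exact bot_le
  · unfold dens
    rw [indicator_of_notMem hx, ENNReal.zero_rpow_of_pos ht', zero_mul]
    exact bot_le

lemma even_dens (heven : ∀ x, V (-x) = V x) (x : Fin n → ℝ) : dens V (-x) = dens V x := by
  have h : (Homeomorph.neg (Fin n → ℝ)) ⁻¹' interior {x | V x ≠ ⊤} =
      interior {x | V x ≠ ⊤} := by
    rw [Homeomorph.preimage_interior]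
    congr 1
    ext y
    simp [heven]
  have h' : -x ∈ interior {x | V x ≠ ⊤} ↔ x ∈ interior {x | V x ≠ ⊤} := by
    conv_rhs => rw [← h]
    rfl
  unfold dens
  by_cases hx : x ∈ interior {x | V x ≠ ⊤}
  · rw [indicator_of_mem hx, indicator_of_mem (h'.2 hx), heven]
  · rw [indicator_of_notMem hx, indicator_of_notMem (fun h2 => hx (h'.1 h2))]

lemma dens_le (F : (Fin n → ℝ) → ℝ≥0∞) (hL : LogC F) (hE : ∀ x, F (-x) = F x)
    (x : Fin n → ℝ) : F x ≤ F 0 := by
  have h := hL (1 / 2) (by norm_num) (by norm_num) x (-x)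
  rw [hE, ← ENNReal.rpow_add_of_nonneg _ _ (by norm_num) (by norm_num)] at h
  have e : (1 - (1 / 2 : ℝ)) • x + (1 / 2 : ℝ) • (-x) = 0 := by
    ext i
    simp only [Pi.add_apply, Pi.smul_apply, Pi.neg_apply, Pi.zero_apply, smul_eq_mul]
    ring
  rw [e] at h
  norm_num at h
  exact h

lemma withDensity_dens (hV : ∀ x, V x ≠ ⊥)
    (hconv : ∀ (x y : Fin n → ℝ) (s : ℝ), 0 < s → s < 1 →
      V (s • x + (1 - s) • y) ≤ (s : EReal) * V x + ((1 - s : ℝ) : EReal) * V y) :
    (volume : Measure (Fin n → ℝ)).withDensity (fun x => EReal.exp (-(V x))) =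
      volume.withDensity (dens V) := by
  refine withDensity_congr_ae ?_
  have h0 : volume (frontier {x | V x ≠ ⊤}) = 0 := (convex_dom hconv).addHaar_frontier volume
  have h1 : ∀ᵐ x : Fin n → ℝ, x ∉ frontier {x | V x ≠ ⊤} := measure_eq_zero_iff_ae_notMem.1 h0
  filter_upwards [h1] with x hx
  unfold dens
  by_cases h : x ∈ interior {x | V x ≠ ⊤}
  · rw [indicator_of_mem h]
    have h2 : V x ≠ ⊤ := interior_subset h
    conv_lhs => rw [(EReal.coe_toReal h2 (hV x)).symm, ← EReal.coe_neg, EReal.exp_coe]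
  · rw [indicator_of_notMem h]
    have h2 : V x = ⊤ := by
      by_contra h3
      exact hx ⟨subset_closure h3, h⟩
    rw [h2]
    simp

end StepA

/-! ### the marginals -/

section StepB

/-- the marginal with its formula -/
lemma marg_explicit {m : ℕ} (F : (Fin (m + 1) → ℝ) → ℝ≥0∞) (i : Fin (m + 1)) (hF : Measurable F)
    (hL : LogC F) (hE : ∀ x, F (-x) = F x) :
    Measurable (fun a : ℝ => ∫⁻ y : Fin m → ℝ, F (i.insertNth a y)) ∧
    (∀ a : ℝ, ∫⁻ y : Fin m → ℝ, F (i.insertNth (-a) y) = ∫⁻ y : Fin m → ℝ, F (i.insertNth a y)) ∧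
    LogC (fun a : ℝ => ∫⁻ y : Fin m → ℝ, F (i.insertNth a y)) ∧
    ∀ g : ℝ → ℝ≥0∞, Measurable g → ∫⁻ x : Fin (m + 1) → ℝ, g (x i) * F x =
      ∫⁻ a, g a * ∫⁻ y : Fin m → ℝ, F (i.insertNth a y) := by
  have hm : Measurable fun p : ℝ × (Fin m → ℝ) => F (i.insertNth p.1 p.2) :=
    hF.comp (measurable_ins i)
  refine ⟨hm.lintegral_prod_right', ?_, ?_, ?_⟩
  · intro a
    have h := (Measure.measurePreserving_neg (volume : Measure (Fin m → ℝ))).lintegral_comp
      (hm.comp (measurable_prodMk_left (x := -a)))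
    change ∫⁻ y : Fin m → ℝ, F (i.insertNth (-a) y) = ∫⁻ y : Fin m → ℝ, F (i.insertNth a y)
    refine h.symm.trans (lintegral_congr fun y => ?_)
    change F (i.insertNth (-a) (-y)) = F (i.insertNth a y)
    rw [ins_neg, hE]
  · intro t ht0 ht1 x y
    refine Pool.Agent.Lib.MP_2c1b2b_gt.H32.pl_fin m t ht0 ht1 _ _ _
      (hm.comp measurable_prodMk_left)
      (hm.comp measurable_prodMk_left) (hm.comp measurable_prodMk_left) ?_
    intro u v
    have h := hL t ht0 ht1 (i.insertNth x u) (i.insertNth y v)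
    refine h.trans (le_of_eq ?_)
    simp only [smul_eq_mul]
    rw [ins_comb]
  · intro g hg
    have h1 : Measurable fun x : Fin (m + 1) → ℝ => g (x i) * F x :=
      (hg.comp (measurable_pi_apply i)).mul hF
    rw [lintegral_split i _ h1]
    refine lintegral_congr fun a => ?_
    simp only [Fin.insertNth_apply_same]
    exact lintegral_const_mul _ (hm.comp measurable_prodMk_left)

/-- `[0, ∞]`-valued to real-valued log-concavity, after division by a constant -/
lemma elc_of_logC {k : ℝ → ℝ≥0∞} (hL : LogC k) (hE : ∀ a, k (-a) = k a) (hk : ∀ a, k a ≠ ∞)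
    {c : ℝ≥0∞} (hc0 : c ≠ 0) (hct : c ≠ ∞) :
    Pool.Agent.Lib.MP_2d002d_gt.H29.ELC (fun a => (k a * c).toReal) := by
  have hfin : ∀ a, k a * c ≠ ∞ := fun a => ENNReal.mul_ne_top (hk a) hct
  refine ⟨fun _ => ENNReal.toReal_nonneg, fun a => by simp only [hE], ?_⟩
  intro x y t ht0 ht1
  rcases eq_or_lt_of_le ht0 with h0 | h0
  · rw [← h0]; simp
  rcases eq_or_lt_of_le ht1 with h1 | h1
  · rw [h1]; simp
  have h1' : 0 < 1 - t := by linarith
  have h := hL t h0 h1 y x
  simp only [smul_eq_mul] at h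
  rw [ENNReal.toReal_rpow, ENNReal.toReal_rpow, ← ENNReal.toReal_mul]
  refine ENNReal.toReal_mono (hfin _) ?_
  rw [ENNReal.mul_rpow_of_nonneg _ _ ht0, ENNReal.mul_rpow_of_nonneg _ _ h1'.le]
  have e : c ^ t * c ^ (1 - t) = c := by
    rw [← ENNReal.rpow_add _ _ hc0 hct]; simp
  calc k x ^ t * c ^ t * (k y ^ (1 - t) * c ^ (1 - t))
      = (k y ^ (1 - t) * k x ^ t) * (c ^ t * c ^ (1 - t)) := by ring
    _ = (k y ^ (1 - t) * k x ^ t) * c := by rw [e]
    _ ≤ k (t * x + (1 - t) * y) * c := by
      gcongr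
      refine h.trans (le_of_eq ?_)
      congr 1
      ring

theorem product_density {m : ℕ} (F : (Fin (m + 1) → ℝ) → ℝ≥0∞) (hF : Measurable F)
    (hL : LogC F) (hE : ∀ x, F (-x) = F x) (h0 : F 0 ≠ ∞) (ν : Fin (m + 1) → Measure ℝ)
    (hν : ∀ s : Fin (m + 1) → Set ℝ, (∀ i, MeasurableSet (s i)) →
      (volume.withDensity F) (univ.pi s) = ∏ i, ν i (s i))
    (hne : volume.withDensity F ≠ 0) :
    ∃ f : Fin (m + 1) → ℝ → ℝ, (∀ i, Pool.Agent.Lib.MP_2d002d_gt.H29.ELC (f i)) ∧
      volume.withDensity F = volume.withDensity (fun x => ENNReal.ofReal (∏ i, f i (x i))) := by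
  classical
  -- a box with positive mass
  obtain ⟨R, hR⟩ : ∃ R : ℕ, (volume.withDensity F)
      (univ.pi fun _ : Fin (m + 1) => Icc (-(R : ℝ)) R) ≠ 0 := by
    by_contra hcon
    push Not at hcon
    apply hne
    rw [← Measure.measure_univ_eq_zero]
    have hU : (univ : Set (Fin (m + 1) → ℝ)) =
        ⋃ R : ℕ, univ.pi fun _ : Fin (m + 1) => Icc (-(R : ℝ)) R := by
      refine (eq_univ_of_forall fun x => ?_).symm
      obtain ⟨R, hR⟩ := exists_nat_ge ‖x‖
      refine mem_iUnion.2 ⟨R, fun i _ => ?_⟩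
      have := (norm_le_pi_norm x i).trans hR
      rw [Real.norm_eq_abs] at this
      exact abs_le.1 this
    rw [hU]
    exact measure_iUnion_null hcon
  set I : Set ℝ := Icc (-(R : ℝ)) R with hI
  have hIm : MeasurableSet I := measurableSet_Icc
  have hbound : ∀ x, F x ≤ F 0 := dens_le F hL hE
  have hvolI : volume I ≠ ∞ := by
    rw [hI, Real.volume_Icc]; exact ENNReal.ofReal_ne_top
  have hbox : (volume.withDensity F) (univ.pi fun _ : Fin (m + 1) => I) ≠ ∞ := by
    rw [withDensity_apply _ (MeasurableSet.univ_pi fun _ => hIm)]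
    refine ne_top_of_le_ne_top ?_ (lintegral_mono hbound)
    rw [lintegral_const, Measure.restrict_apply_univ, volume_pi_pi]
    exact ENNReal.mul_ne_top h0 (ENNReal.prod_ne_top fun _ _ => hvolI)
  have hprod := hν (fun _ => I) (fun _ => hIm)
  rw [hprod] at hbox hR
  have hI0 : ∀ i, ν i I ≠ 0 := fun i => by
    have := Finset.prod_ne_zero_iff.1 hR i (Finset.mem_univ i)
    exact this
  have hsplit : ∀ i, ∏ j, ν j I = ν i I * ∏ j ∈ Finset.univ.erase i, ν j I := fun i =>
    (Finset.mul_prod_erase _ _ (Finset.mem_univ i)).symm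
  have hc0 : ∀ i, ∏ j ∈ Finset.univ.erase i, ν j I ≠ 0 := fun i =>
    Finset.prod_ne_zero_iff.2 fun j _ => hI0 j
  have hIt : ∀ i, ν i I ≠ ∞ := by
    intro i hi
    apply hbox
    rw [hsplit i, hi, ENNReal.top_mul (hc0 i)]
  have hct : ∀ i, ∏ j ∈ Finset.univ.erase i, ν j I ≠ ∞ := fun i =>
    ENNReal.prod_ne_top fun j _ => hIt j
  -- the truncated density
  set T : Fin (m + 1) → Set (Fin (m + 1) → ℝ) := fun i => {x | ∀ j, j ≠ i → x j ∈ I} with hT
  have hTm : ∀ i, MeasurableSet (T i) := by
    intro i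
    have : T i = ⋂ j, {x : Fin (m + 1) → ℝ | j ≠ i → x j ∈ I} := by
      ext x; simp [hT]
    rw [this]
    refine MeasurableSet.iInter fun j => ?_
    by_cases h : j ≠ i
    · simp only [h, ne_eq, not_false_eq_true, forall_const]
      exact measurable_pi_apply j hIm
    · simp [h]
  have hGm : ∀ i, Measurable ((T i).indicator F) := fun i => hF.indicator (hTm i)
  have hGL : ∀ i, LogC ((T i).indicator F) := by
    intro i t ht0 ht1 x y
    have ht' : 0 < 1 - t := by linarith
    by_cases hx : x ∈ T i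
    · by_cases hy : y ∈ T i
      · have hxy : (1 - t) • x + t • y ∈ T i := by
          intro j hj
          exact (convex_Icc (-(R : ℝ)) R) (hx j hj) (hy j hj) ht'.le ht0.le (by ring)
        rw [indicator_of_mem hx, indicator_of_mem hy, indicator_of_mem hxy]
        exact hL t ht0 ht1 x y
      · rw [indicator_of_notMem hy, ENNReal.zero_rpow_of_pos ht0, mul_zero]
        exact bot_le
    · rw [indicator_of_notMem hx, ENNReal.zero_rpow_of_pos ht', zero_mul]
      exact bot_le
  have hIneg : ∀ a : ℝ, -a ∈ I ↔ a ∈ I := by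
    intro a
    simp only [hI, mem_Icc]
    constructor <;> rintro ⟨h1, h2⟩ <;> constructor <;> linarith
  have hTneg : ∀ i x, -x ∈ T i ↔ x ∈ T i := by
    intro i x
    simp only [hT, mem_ofPred_eq, Pi.neg_apply, hIneg]
  have hGE : ∀ i x, (T i).indicator F (-x) = (T i).indicator F x := by
    intro i x
    by_cases hx : x ∈ T i
    · rw [indicator_of_mem hx, indicator_of_mem ((hTneg i x).2 hx), hE]
    · rw [indicator_of_notMem hx, indicator_of_notMem (fun h => hx ((hTneg i x).1 h))]
  set k : Fin (m + 1) → ℝ → ℝ≥0∞ :=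
    fun i a => ∫⁻ y : Fin m → ℝ, (T i).indicator F (i.insertNth a y) with hk
  have hmarg := fun i => marg_explicit ((T i).indicator F) i (hGm i) (hGL i) (hGE i)
  have hkm : ∀ i, Measurable (k i) := fun i => (hmarg i).1
  have hkt : ∀ i a, k i a ≠ ∞ := by
    intro i a
    have h1 : ∀ y : Fin m → ℝ, (T i).indicator F (i.insertNth a y) ≤
        (univ.pi fun _ : Fin m => I).indicator (fun _ => F 0) y := by
      intro y
      by_cases hy : (i.insertNth a y : Fin (m + 1) → ℝ) ∈ T i
      · rw [indicator_of_mem hy, indicator_of_mem]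
        · exact hbound _
        · intro j _
          have := hy (i.succAbove j) (Fin.succAbove_ne i j)
          simpa using this
      · rw [indicator_of_notMem hy]; exact bot_le
    refine ne_top_of_le_ne_top ?_ (lintegral_mono h1)
    rw [lintegral_indicator (MeasurableSet.univ_pi fun _ => hIm), lintegral_const,
      Measure.restrict_apply_univ, volume_pi_pi]
    exact ENNReal.mul_ne_top h0 (ENNReal.prod_ne_top fun _ _ => hvolI)
  -- the factors
  have hνk : ∀ i, ∀ s : Set ℝ, MeasurableSet s →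
      ν i s * ∏ j ∈ Finset.univ.erase i, ν j I = ∫⁻ a in s, k i a := by
    intro i s hs
    have h1 := (hmarg i).2.2.2 (s.indicator 1) (measurable_one.indicator hs)
    have h2 : ∀ x : Fin (m + 1) → ℝ, s.indicator (1 : ℝ → ℝ≥0∞) (x i) * (T i).indicator F x =
        (univ.pi (Function.update (fun _ => I) i s)).indicator F x := by
      intro x
      by_cases hx : x ∈ univ.pi (Function.update (fun _ => I) i s)
      · have hxi : x i ∈ s := by
          have := hx i (mem_univ i)
          simpa using this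
        have hxT : x ∈ T i := by
          intro j hj
          have := hx j (mem_univ j)
          simpa [Function.update_of_ne hj] using this
        rw [indicator_of_mem hx, indicator_of_mem hxi, indicator_of_mem hxT, Pi.one_apply, one_mul]
      · rw [indicator_of_notMem hx]
        by_cases hxi : x i ∈ s
        · have hxT : x ∉ T i := by
            intro hxT
            apply hx
            intro j _
            by_cases hj : j = i
            · subst hj; simpa using hxi
            · simpa [Function.update_of_ne hj] using hxT j hj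
          rw [indicator_of_notMem hxT, mul_zero]
        · rw [indicator_of_notMem hxi, zero_mul]
    have hms : ∀ j, MeasurableSet (Function.update (fun _ : Fin (m + 1) => I) i s j) := by
      intro j
      by_cases hj : j = i
      · subst hj; simpa using hs
      · simpa [Function.update_of_ne hj] using hIm
    have h3 : ∀ a : ℝ, s.indicator (1 : ℝ → ℝ≥0∞) a * k i a = s.indicator (k i) a := by
      intro a
      by_cases ha : a ∈ s
      · rw [indicator_of_mem ha, indicator_of_mem ha, Pi.one_apply, one_mul]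
      · rw [indicator_of_notMem ha, indicator_of_notMem ha, zero_mul]
    simp_rw [h2] at h1
    rw [lintegral_indicator (MeasurableSet.univ_pi hms),
      ← withDensity_apply _ (MeasurableSet.univ_pi hms), hν _ hms] at h1
    have h4 : ∏ j, ν j (Function.update (fun _ : Fin (m + 1) => I) i s j) =
        ν i s * ∏ j ∈ Finset.univ.erase i, ν j I := by
      rw [← Finset.mul_prod_erase _ _ (Finset.mem_univ i), Function.update_self]
      congr 1
      refine Finset.prod_congr rfl fun j hj => ?_
      rw [Function.update_of_ne (Finset.ne_of_mem_erase hj)]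
    rw [← h4, h1]
    change ∫⁻ a, s.indicator (1 : ℝ → ℝ≥0∞) a * k i a = _
    simp_rw [h3]
    rw [lintegral_indicator hs]
  set c : Fin (m + 1) → ℝ≥0∞ := fun i => (∏ j ∈ Finset.univ.erase i, ν j I)⁻¹ with hc
  have hc0' : ∀ i, c i ≠ 0 := fun i => ENNReal.inv_ne_zero.2 (hct i)
  have hct' : ∀ i, c i ≠ ∞ := fun i => ENNReal.inv_ne_top.2 (hc0 i)
  set f : Fin (m + 1) → ℝ → ℝ := fun i a => (k i a * c i).toReal with hf
  have hELC : ∀ i, Pool.Agent.Lib.MP_2d002d_gt.H29.ELC (f i) := fun i =>
    elc_of_logC (hmarg i).2.2.1 (hmarg i).2.1 (hkt i) (hc0' i) (hct' i)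
  have hfo : ∀ i a, ENNReal.ofReal (f i a) = k i a * c i := fun i a =>
    ENNReal.ofReal_toReal (ENNReal.mul_ne_top (hkt i a) (hct' i))
  have hfm : ∀ i, Measurable (f i) := fun i => ((hkm i).mul_const (c i)).ennreal_toReal
  have hνd : ∀ i, ν i = volume.withDensity (fun a => ENNReal.ofReal (f i a)) := by
    intro i
    refine Measure.ext fun s hs => ?_
    rw [withDensity_apply _ hs]
    simp_rw [hfo]
    rw [lintegral_mul_const _ (hkm i), ← hνk i s hs, mul_assoc, hc,
      ENNReal.mul_inv_cancel (hc0 i) (hct i), mul_one]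
  have : ∀ i, SigmaFinite (ν i) := by
    intro i
    rw [hνd i]
    exact SigmaFinite.withDensity_ofReal _
  refine ⟨f, hELC, ?_⟩
  have h1 : Measure.pi ν = volume.withDensity F := Measure.pi_eq fun s hs => hν s hs
  rw [← h1]
  refine Measure.pi_eq fun s hs => ?_
  rw [withDensity_apply _ (MeasurableSet.univ_pi hs), ← lintegral_indicator
    (MeasurableSet.univ_pi hs)]
  have h2 : ∀ x : Fin (m + 1) → ℝ, (univ.pi s).indicator
      (fun x => ENNReal.ofReal (∏ i, f i (x i))) x =
      ∏ i, (s i).indicator (fun a => ENNReal.ofReal (f i a)) (x i) := by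
    intro x
    by_cases hx : x ∈ univ.pi s
    · rw [indicator_of_mem hx, ENNReal.ofReal_prod_of_nonneg fun i _ => (hELC i).nonneg _]
      refine Finset.prod_congr rfl fun i _ => ?_
      rw [indicator_of_mem (hx i (mem_univ i))]
    · rw [indicator_of_notMem hx]
      have : ∃ i, x i ∉ s i := by
        by_contra h
        push Not at h
        exact hx fun i _ => h i
      obtain ⟨i, hi⟩ := this
      exact (Finset.prod_eq_zero (Finset.mem_univ i) (indicator_of_notMem hi _)).symm
  simp_rw [h2]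
  rw [Pool.Agent.Lib.MP_2d002d_gt.H29.lintegral_prod_fin _ _
    (fun i => (hfm i).ennreal_ofReal.indicator (hs i))]
  refine Finset.prod_congr rfl fun i _ => ?_
  rw [lintegral_indicator (hs i), ← withDensity_apply _ (hs i), ← hνd i]

end StepB

end Pool.Agent.Lib.MP_2d002d_gt.H20
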